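import Pool.Agent.H18.GZ.Targets3
import Pool.Agent.H34.GM.WCT

/-!
Row VCT of the board gz_modules: the adjoint of the Gauss sum operator.
-/

namespace Pool.Agent.H94.GZ

open MeasureTheory Pool.Agent.H34.GM Pool.Agent.H34.GZ

namespace VCTaux

variable {R : Type} [Ring R] [Fintype R]

omit [Fintype R] in
/-- the inverse of the inverse -/
theorem inv_inv' (x : R) (hx : IsUnit x) : IsUnit (Ring.inverse x) ∧
    Ring.inverse (Ring.inverse x) = x := by
  obtain ⟨u, rfl⟩ := hx
  rw [Ring.inverse_unit]
  exact ⟨u⁻¹.isUnit, by rw [Ring.inverse_unit, inv_inv]⟩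

/-- sums over the units, substitution of the inverse -/
theorem sum_inv [DecidableEq R] {M : Type*} [AddCommMonoid M] (g : R → M)
    [DecidablePred fun x : R => IsUnit x] :
    ∑ x : R, (if IsUnit x then g (Ring.inverse x) else 0) =
      ∑ x : R, if IsUnit x then g x else 0 := by
  rw [← Finset.sum_filter, ← Finset.sum_filter]
  refine Finset.sum_nbij' (fun x => Ring.inverse x) (fun x => Ring.inverse x) ?_ ?_ ?_ ?_ ?_
  · intro x hx
    simp only [Finset.mem_filter, Finset.mem_univ, true_and] at hx ⊢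
    exact (inv_inv' x hx).1
  · intro x hx
    simp only [Finset.mem_filter, Finset.mem_univ, true_and] at hx ⊢
    exact (inv_inv' x hx).1
  · intro x hx
    simp only [Finset.mem_filter, Finset.mem_univ, true_and] at hx
    exact (inv_inv' x hx).2
  · intro x hx
    simp only [Finset.mem_filter, Finset.mem_univ, true_and] at hx
    exact (inv_inv' x hx).2
  · intro x _
    rfl

end VCTaux

open VCTaux in
theorem pf_VCT (hPSZ : T_PSZ) (hALZ : T_ALZ) : T_VCT := by
  classical
  intro m q _ hm hq
  obtain ⟨-, p0, padd, pn, pneg, pcomm, pnd, -⟩ := hPSZ m q hm hq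
  obtain ⟨-, -, hcard, -, -, -, -⟩ := hALZ m q hm hq
  have hq0 : (0 : ℝ) < q := by exact_mod_cast (by omega : 0 < q)
  set c : ℝ := (q : ℝ) ^ (-((m : ℝ) ^ 2) / 2) with hc
  have hc0 : 0 ≤ c := (Real.rpow_pos_of_pos hq0 _).le
  have hc2 : c ^ 2 * (Fintype.card (RM m q) : ℝ) = 1 := by
    rw [hcard, hc, ← Real.rpow_natCast, ← Real.rpow_mul hq0.le]
    push_cast
    rw [← Real.rpow_natCast (q : ℝ) (m ^ 2), ← Real.rpow_add hq0]
    push_cast
    have : -((m : ℝ) ^ 2) / 2 * 2 + (m : ℝ) ^ 2 = 0 := by ring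
    rw [this, Real.rpow_zero]
  refine ⟨fun f => ?_, fun f v x hv => ?_, fun f x hx => by simp [opVz, hx], fun f h hf => ?_⟩
  · -- contraction
    obtain ⟨f', hf'⟩ : ∃ f' : RM m q → ℂ, ∀ a, f' a =
        if IsUnit a then (starRingEnd ℂ) (f (Ring.inverse a)) else 0 := ⟨_, fun _ => rfl⟩
    have h1 : ∀ y : RM m q, ∑ x, (if IsUnit x then
        (starRingEnd ℂ) (psq q (y * Ring.inverse x)) * f x else 0) =
        (starRingEnd ℂ) (∑ a, psq q (a * y) * f' a) := by
      intro y
      have h2 := sum_inv (R := RM m q)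
        (fun a => (starRingEnd ℂ) (psq q (y * a)) * f (Ring.inverse a))
      rw [map_sum]
      refine Eq.trans (Eq.trans ?_ h2) ?_
      · refine Finset.sum_congr rfl fun x _ => ?_
        by_cases hx : IsUnit x
        · rw [if_pos hx, if_pos hx, (inv_inv' x hx).2]
        · rw [if_neg hx, if_neg hx]
      · refine Finset.sum_congr rfl fun x _ => ?_
        by_cases hx : IsUnit x
        · rw [if_pos hx, map_mul, hf' x, if_pos hx, Complex.conj_conj, pcomm y x]
        · rw [if_neg hx, map_mul, hf' x, if_neg hx, map_zero, mul_zero]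
    have h3 : ∀ y : RM m q, ‖opVz q f y‖ ^ 2 ≤ c ^ 2 * ‖∑ a, psq q (a * y) * f' a‖ ^ 2 := by
      intro y
      by_cases hy : IsUnit y
      · simp only [opVz, if_pos hy]
        rw [h1 y, norm_mul, mul_pow, ← hc, Complex.norm_real, Real.norm_of_nonneg hc0,
          Complex.norm_conj]
      · simp only [opVz, if_neg hy, norm_zero]
        have : (0 : ℝ) ≤ c ^ 2 * ‖∑ a, psq q (a * y) * f' a‖ ^ 2 := by positivity
        simpa using this
    have h4 := WCTaux.planch (R := RM m q) (ps := psq q) p0 padd pn pnd f'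
    have h5 : ∑ a : RM m q, ‖f' a‖ ^ 2 ≤ ∑ x, ‖f x‖ ^ 2 := by
      have h6 := sum_inv (R := RM m q) (fun a => ‖f a‖ ^ 2)
      have h7 : ∑ a : RM m q, ‖f' a‖ ^ 2 =
          ∑ x : RM m q, (if IsUnit x then ‖f (Ring.inverse x)‖ ^ 2 else 0) := by
        refine Finset.sum_congr rfl fun x _ => ?_
        by_cases hx : IsUnit x
        · rw [if_pos hx, hf' x, if_pos hx, Complex.norm_conj]
        · rw [if_neg hx, hf' x, if_neg hx, norm_zero]
          norm_num
      rw [h7, h6]
      refine Finset.sum_le_sum fun x _ => ?_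
      split_ifs
      · exact le_rfl
      · positivity
    calc ∑ x, ‖opVz q f x‖ ^ 2 ≤ ∑ y, c ^ 2 * ‖∑ a, psq q (a * y) * f' a‖ ^ 2 :=
          Finset.sum_le_sum fun y _ => h3 y
      _ = ∑ a, ‖f' a‖ ^ 2 := by rw [← Finset.mul_sum, h4, ← mul_assoc, hc2, one_mul]
      _ ≤ ∑ x, ‖f x‖ ^ 2 := h5
  · -- translation
    by_cases hx : IsUnit x
    · have hvx : IsUnit (v * x) := hv.mul hx
      simp only [opVz, if_pos hx, if_pos hvx]
      congr 1
      obtain ⟨w, rfl⟩ := hv
      rw [← Equiv.sum_comp (Units.mulLeft w) (fun y : RM m q => if IsUnit y then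
        (starRingEnd ℂ) (psq q ((w : RM m q) * x * Ring.inverse y)) * f y else 0)]
      refine Finset.sum_congr rfl fun y _ => ?_
      simp only [Units.mulLeft_apply]
      by_cases hy : IsUnit y
      · have hwy : IsUnit ((w : RM m q) * y) := w.isUnit.mul hy
        rw [if_pos hy, if_pos hwy]
        congr 2
        obtain ⟨u, rfl⟩ := hy
        have hinv : Ring.inverse ((w : RM m q) * (u : RM m q)) =
            ((u⁻¹ : (RM m q)ˣ) : RM m q) * ((w⁻¹ : (RM m q)ˣ) : RM m q) := by
          rw [← Units.val_mul, Ring.inverse_unit, mul_inv_rev, Units.val_mul]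
        rw [hinv, Ring.inverse_unit, ← mul_assoc, pcomm _ ((w⁻¹ : (RM m q)ˣ) : RM m q),
          ← mul_assoc, ← mul_assoc, Units.inv_mul, one_mul]
      · have hwy : ¬ IsUnit ((w : RM m q) * y) := by
          rw [Units.isUnit_units_mul]
          exact hy
        rw [if_neg hy, if_neg hwy]
    · have hvx : ¬ IsUnit (v * x) := by
        obtain ⟨w, rfl⟩ := hv
        rw [Units.isUnit_units_mul]
        exact hx
      simp only [opVz, if_neg hx, if_neg hvx]
  · -- adjointness
    have h1 : ∀ x : RM m q, opWz q f x * (starRingEnd ℂ) (h x) =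
        ∑ y, if IsUnit x ∧ IsUnit y then
          (c : ℂ) * (psq q (y * Ring.inverse x) * f y * (starRingEnd ℂ) (h x)) else 0 := by
      intro x
      by_cases hx : IsUnit x
      · simp only [opWz, if_pos hx]
        rw [← hc, mul_assoc, Finset.sum_mul, Finset.mul_sum]
        refine Finset.sum_congr rfl fun y _ => ?_
        by_cases hy : IsUnit y
        · rw [if_pos ⟨hx, hy⟩]
        · rw [if_neg (fun hh => hy hh.2), hf y hy]
          ring
      · simp only [opWz, if_neg hx, zero_mul]
        symm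
        refine Finset.sum_eq_zero fun y _ => ?_
        rw [if_neg (fun hh => hx hh.1)]
    have h2 : ∀ y : RM m q, f y * (starRingEnd ℂ) (opVz q h y) =
        ∑ x, if IsUnit x ∧ IsUnit y then
          (c : ℂ) * (psq q (y * Ring.inverse x) * f y * (starRingEnd ℂ) (h x)) else 0 := by
      intro y
      by_cases hy : IsUnit y
      · simp only [opVz, if_pos hy]
        rw [← hc, map_mul, Complex.conj_ofReal, map_sum, Finset.mul_sum, Finset.mul_sum]
        refine Finset.sum_congr rfl fun x _ => ?_
        by_cases hx : IsUnit x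
        · rw [if_pos hx, if_pos ⟨hx, hy⟩, map_mul, Complex.conj_conj]
          ring
        · rw [if_neg hx, if_neg (fun hh => hx hh.1), map_zero]
          ring
      · rw [hf y hy, zero_mul]
        symm
        refine Finset.sum_eq_zero fun x _ => ?_
        rw [if_neg (fun hh => hy hh.2)]
    rw [Finset.sum_congr rfl fun x _ => h1 x, Finset.sum_comm,
      Finset.sum_congr rfl fun y _ => h2 y]

end Pool.Agent.H94.GZ
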